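import Pool.Agent.Helper79_HMC.Stmts

/-! # HMC, modules LIT and BOD -/

set_option autoImplicit false

namespace Pool.Agent.HMC.H81

open Pool.Agent.HMC
open Pool.Agent.Common_CookLevin (CNF)

theorem PEq.refl (A : List (List (Fin 3))) : PEq A A := fun _ => rfl

theorem PEq.trans {A B C : List (List (Fin 3))} (h1 : PEq A B) (h2 : PEq B C) : PEq A C :=
  fun f => (h1 f).trans (h2 f)

theorem step (hPeq : PeqStmt) {u w : List ℕ} {f g : List (Fin 3)} {B : List (List (Fin 3))}
    (h1 : PEq (run u f) [g]) (h2 : PEq (run w g) B) : PEq (run (u ++ w) f) B := by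
  rw [hPeq.1]
  have h3 := hPeq.2.2.1 (run u f) [g] (run w) h1
  refine PEq.trans h3 ?_
  simpa using h2

theorem stepIf (hPeq : PeqStmt) {u w : List ℕ} {f g g' : List (Fin 3)} {P : Prop} [Decidable P]
    (h1 : PEq (run u f) (if P then [] else [g])) (h2 : PEq (run w g) [g']) :
    PEq (run (u ++ w) f) (if P then [] else [g']) := by
  rw [hPeq.1]
  refine PEq.trans (hPeq.2.2.1 (run u f) _ (run w) h1) ?_
  split_ifs with h
  · exact PEq.refl _
  · simpa using h2

/-- the optional negation -/
theorem neg (hKet : KetStmt) (s : Bool) (a x y : Bool) (r : List Bool) :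
    PEq (run (if s then [] else sh 8 NT) (ket ([a, x, y] ++ r)))
      [ket ([a, x, if s then y else !y] ++ r)] := by
  cases s with
  | true => exact PEq.refl _
  | false =>
    have h1 := hKet.2.1 ([a, x, y] ++ r) 2 (by simp)
    have h2 : (4 * 2 : ℕ) = 8 := rfl
    rw [h2] at h1
    simp only [Bool.false_eq_true, if_false]
    rw [h1]
    exact PEq.refl _

theorem core (hUpd : UpdStmt) (hKet : KetStmt) (hPeq : PeqStmt) (m v : ℕ) (s x y : Bool)
    (mm mid r : List Bool) (hl : mid.length + mm.length + 1 = m + v) :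
    PEq (run (lit m mm.length (v, s)) (ket ([false] ++ mm ++ [x] ++ mid ++ [y] ++ r)))
      (if x = true ∧ y = s then [] else [ket ([false] ++ mm ++ [x] ++ mid ++ [y] ++ r)]) := by
  -- the moves of the clause bit
  have hA := hUpd [false] (mid ++ [y] ++ r) x mm (by simp)
  have hA1 : ([false] : List Bool).length + mm.length - 1 = mm.length := by simp
  rw [hA1] at hA
  have hA0 : ([false] : List Bool).length = 1 := rfl
  rw [hA0] at hA
  -- the moves of the variable bit
  have hB := hUpd [false, x] r y (mm ++ mid) (by simp)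
  have hB1 : ([false, x] : List Bool).length + (mm ++ mid).length - 1 = m + v := by
    simp only [List.length_cons, List.length_nil, List.length_append]
    omega
  rw [hB1] at hB
  have hB0 : ([false, x] : List Bool).length = 2 := rfl
  rw [hB0] at hB
  have e1 : [false] ++ mm ++ [x] ++ (mid ++ [y] ++ r) =
      [false] ++ mm ++ [x] ++ mid ++ [y] ++ r := by simp
  have e2 : [false] ++ [x] ++ mm ++ (mid ++ [y] ++ r) =
      [false, x] ++ (mm ++ mid) ++ [y] ++ r := by simp
  rw [e1, e2] at hA
  have e3 : [false, x] ++ [y] ++ (mm ++ mid) ++ r = [false, x, y] ++ (mm ++ mid ++ r) := by simp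
  rw [e3] at hB
  set y' : Bool := if s then y else !y with hy'
  have e4 : (if s then y' else !y') = y := by
    rw [hy']; cases s <;> simp
  -- the clause gate
  have hC := hKet.2.2 ([false, x, y'] ++ (mm ++ mid ++ r)) (by simp)
  have hC' : PEq (run (sh 2 CL) (ket ([false, x, y'] ++ (mm ++ mid ++ r))))
      (if x = true ∧ y = s then [] else [ket ([false, x, y'] ++ (mm ++ mid ++ r))]) := by
    have e5 : (([false, x, y'] ++ (mm ++ mid ++ r)).getD 1 false =
        ([false, x, y'] ++ (mm ++ mid ++ r)).getD 2 false ∧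
        ([false, x, y'] ++ (mm ++ mid ++ r)).getD 1 false ≠
        ([false, x, y'] ++ (mm ++ mid ++ r)).getD 0 false) ↔ (x = true ∧ y = s) := by
      have e6 : ([false, x, y'] ++ (mm ++ mid ++ r)).getD 1 false = x := rfl
      have e7 : ([false, x, y'] ++ (mm ++ mid ++ r)).getD 2 false = y' := rfl
      have e8 : ([false, x, y'] ++ (mm ++ mid ++ r)).getD 0 false = false := rfl
      rw [e6, e7, e8, hy']
      cases s <;> cases x <;> cases y <;> simp
    simp only [e5] at hC
    exact hC
  have hN1 := neg hKet s false x y (mm ++ mid ++ r)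
  have hN2 := neg hKet s false x y' (mm ++ mid ++ r)
  rw [← hy'] at hN1
  rw [e4] at hN2
  have hlit : lit m mm.length (v, s) = up 1 mm.length ++ (up 2 (m + v) ++
      ((if s then [] else sh 8 NT) ++ (sh 2 CL ++ ((if s then [] else sh 8 NT) ++
      (down 2 (m + v) ++ down 1 mm.length))))) := by
    simp only [lit, List.append_assoc]
  rw [hlit]
  refine step hPeq hA.1 (step hPeq hB.1 (step hPeq hN1 (stepIf hPeq hC' ?_)))
  exact step hPeq hN2 (step hPeq hB.2 hA.2)

theorem lit' (hUpd : UpdStmt) (hKet : KetStmt) (hPeq : PeqStmt) : LitStmt := by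
  intro m j l b hj hb h0
  obtain ⟨v, s⟩ := l
  have hb' : 1 + m + v < b.length := hb
  -- decomposition of `b`
  have hlen : 0 < b.length := by omega
  obtain ⟨b1, rfl⟩ : ∃ b1, b = false :: b1 := by
    cases b with
    | nil => simp at hlen
    | cons c b1 =>
      refine ⟨b1, ?_⟩
      simp at h0
      rw [h0]
  have hb1 : m + v < b1.length := by
    simp only [List.length_cons] at hb'; omega
  obtain ⟨mm, x, b2, hmm, rfl⟩ : ∃ mm x b2, mm.length = j ∧ b1 = mm ++ x :: b2 := by
    refine ⟨b1.take j, b1[j]'(by omega), b1.drop (j + 1), ?_, ?_⟩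
    · rw [List.length_take]; omega
    · rw [← List.drop_eq_getElem_cons (by omega), List.take_append_drop]
  have hb2 : m + v < j + 1 + b2.length := by
    simp only [List.length_append, List.length_cons] at hb1; omega
  obtain ⟨mid, y, r, hmid, rfl⟩ : ∃ mid y r, mid.length + j + 1 = m + v ∧ b2 = mid ++ y :: r := by
    refine ⟨b2.take (m + v - j - 1), b2[m + v - j - 1]'(by omega), b2.drop (m + v - j - 1 + 1), ?_, ?_⟩
    · rw [List.length_take]; omega
    · rw [← List.drop_eq_getElem_cons (by omega), List.take_append_drop]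
  subst hmm
  have hx : (false :: (mm ++ x :: (mid ++ y :: r)))[1 + mm.length]? = some x := by
    rw [add_comm, List.getElem?_cons_succ, List.getElem?_append_right (le_refl _)]
    simp
  have hy : (false :: (mm ++ x :: (mid ++ y :: r)))[1 + m + (v, s).1]? = some y := by
    have e1 : 1 + m + (v, s).1 = (mm.length + (mid.length + 1)) + 1 := by
      simp only; omega
    rw [e1, List.getElem?_cons_succ, List.getElem?_append_right (by omega)]
    have e2 : mm.length + (mid.length + 1) - mm.length = mid.length + 1 := by omega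
    rw [e2, List.getElem?_cons_succ, List.getElem?_append_right (le_refl _)]
    simp
  rw [hx, hy]
  have h1 := core hUpd hKet hPeq m v s x y mm mid r (by omega)
  have e3 : [false] ++ mm ++ [x] ++ mid ++ [y] ++ r = false :: (mm ++ x :: (mid ++ y :: r)) := by
    simp
  rw [e3] at h1
  simpa only [Option.some.injEq] using h1

/-- module LIT -/
theorem lit (hUpd : UpdStmt) (hKet : KetStmt) (hPeq : PeqStmt) : LitStmt := lit' hUpd hKet hPeq

theorem flat (hPeq : PeqStmt) {α : Type} (L : List α) (w : α → List ℕ) (P : α → Prop)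
    (g : List (Fin 3)) (h : ∀ a ∈ L, (P a → PEq (run (w a) g) []) ∧ (¬ P a → PEq (run (w a) g) [g])) :
    ((∀ a ∈ L, ¬ P a) → PEq (run (L.flatMap w) g) [g]) ∧
      (¬ (∀ a ∈ L, ¬ P a) → PEq (run (L.flatMap w) g) []) := by
  induction L with
  | nil => exact ⟨fun _ => by simpa [run] using PEq.refl [g], fun h => absurd (by simp) h⟩
  | cons a L ih =>
    have h1 := h a (by simp)
    have h2 := ih fun c hc => h c (by simp [hc])
    rw [List.flatMap_cons, hPeq.1]
    by_cases hP : P a
    · have h3 : ¬ ∀ c ∈ a :: L, ¬ P c := fun h4 => h4 a (by simp) hP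
      refine ⟨fun h4 => absurd h4 h3, fun _ => ?_⟩
      exact PEq.trans (hPeq.2.2.1 (run (w a) g) _ (run (L.flatMap w)) (h1.1 hP)) (PEq.refl _)
    · have h3 : (∀ c ∈ a :: L, ¬ P c) ↔ ∀ c ∈ L, ¬ P c := by
        simp [hP]
      have h5 := hPeq.2.2.1 (run (w a) g) _ (run (L.flatMap w)) (h1.2 hP)
      have h6 : [g].flatMap (run (L.flatMap w)) = run (L.flatMap w) g := by simp
      rw [h6] at h5
      rw [h3]
      exact ⟨fun h4 => PEq.trans h5 (h2.1 h4), fun h4 => PEq.trans h5 (h2.2 h4)⟩

/-- module BOD -/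
theorem bod (hLit : LitStmt) (hPeq : PeqStmt) : BodStmt := by
  classical
  intro V Φ b hΦ hb h0
  have h1 : ∀ C ∈ Φ.zipIdx,
      ((¬ ∀ l ∈ C.1, ¬ (b[1 + C.2]? = some true ∧ b[1 + Φ.length + l.1]? = some l.2)) →
        PEq (run (C.1.flatMap (HMC.lit Φ.length C.2)) (ket b)) []) ∧
      ((¬ ¬ ∀ l ∈ C.1, ¬ (b[1 + C.2]? = some true ∧ b[1 + Φ.length + l.1]? = some l.2)) →
        PEq (run (C.1.flatMap (HMC.lit Φ.length C.2)) (ket b)) [ket b]) := by
    intro C hC
    obtain ⟨C, j⟩ := C
    have hj := List.mem_zipIdx_iff_getElem?.1 hC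
    have hj' : j < Φ.length := by
      by_contra h
      rw [List.getElem?_eq_none (by omega)] at hj
      exact absurd hj (by simp)
    have hCm : C ∈ Φ := List.mem_of_getElem? hj
    have h2 := flat hPeq C (HMC.lit Φ.length j)
      (fun l => b[1 + j]? = some true ∧ b[1 + Φ.length + l.1]? = some l.2) (ket b) ?_
    · exact ⟨h2.2, fun h => h2.1 (not_not.1 h)⟩
    · intro l hl
      have h3 := hLit Φ.length j l b hj' (by
        have := hΦ C hCm l hl
        rw [hb, nbit]; omega) h0
      exact ⟨fun h => by rwa [if_pos h] at h3, fun h => by rwa [if_neg h] at h3⟩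
  have h2 := flat hPeq Φ.zipIdx (fun C => C.1.flatMap (HMC.lit Φ.length C.2)) _ (ket b) h1
  have h3 : (∀ C ∈ Φ.zipIdx, ¬ ¬ (∀ l ∈ C.1, ¬ (b[1 + C.2]? = some true ∧
      b[1 + Φ.length + l.1]? = some l.2))) ↔ Good Φ b := by
    constructor
    · intro h j C hC
      have := h (C, j) (List.mem_zipIdx_iff_getElem?.2 hC)
      rw [not_not] at this
      exact this
    · intro h C hC
      rw [not_not]
      exact h C.2 C.1 (List.mem_zipIdx_iff_getElem?.1 hC)
  rw [h3] at h2
  by_cases h : Good Φ b
  · rw [if_pos h]; exact h2.1 h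
  · rw [if_neg h]; exact h2.2 h

end Pool.Agent.HMC.H81
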